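import Mathlib

open Finset

set_option autoImplicit false

namespace Pool.Agent.Results.MP_b69f9e_co.Counterexample

/-- In the string `s[1] ... s[n]` (only the values `s 1, ..., s n` are used) the substring
`s[i..j]` occurs at position `p`. -/
def Occurs {α : Type} (n : ℕ) (s : ℕ → α) (i j p : ℕ) : Prop :=
  1 ≤ p ∧ p + (j - i) ≤ n ∧ ∀ t ≤ j - i, s (p + t) = s (i + t)

/-- `s[i..j]` is a right closed repeat of the string `s[1] ... s[n]`. -/
def RightClosedRepeat {α : Type} (n : ℕ) (s : ℕ → α) (i j : ℕ) : Prop :=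
  1 ≤ i ∧ i ≤ j ∧ j ≤ n ∧ ∃ i', i < i' ∧ Occurs n s i j i' ∧
    (∀ p, i < p → p < i' → ¬ Occurs n s i j p) ∧
    (i' + (j - i) = n ∨ s (j + 1) ≠ s (i' + (j - i) + 1))

/-! ### the coordinates -/

def xx (b : ℕ) (e : ℕ × ℕ) : ℕ := if e.2 = 0 then 1 + e.1 % b else e.2

def gg (b : ℕ) (e : ℕ × ℕ) : ℕ × ℕ :=
  if e.2 = 0 then (e.1 / b, 0) else ((e.1 + 1 - e.2) / b, 1 + (e.1 + 1 - e.2) % b)

def code (b : ℕ) : ℕ → ℕ × ℕ → ℕ → Bool
  | 0, _, _ => false
  | D + 1, e, w => if w < b + 1 then decide (w < xx b e) else code b D (gg b e) (w - (b + 1))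

lemma code_lt (b D : ℕ) (e : ℕ × ℕ) (w : ℕ) (hw : w < b + 1) :
    code b (D + 1) e w = decide (w < xx b e) := by
  rw [code, if_pos hw]

lemma code_ge (b D : ℕ) (e : ℕ × ℕ) (w : ℕ) (hw : ¬ w < b + 1) :
    code b (D + 1) e w = code b D (gg b e) (w - (b + 1)) := by
  rw [code, if_neg hw]

lemma xx_zero (b q : ℕ) : xx b (q, 0) = 1 + q % b := by simp [xx]

lemma xx_pos (b : ℕ) (e : ℕ × ℕ) (h : e.2 ≠ 0) : xx b e = e.2 := by simp [xx, h]

def Lt (e f : ℕ × ℕ) : Prop := e.1 < f.1 ∨ (e.1 = f.1 ∧ e.2 < f.2)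

def Good (b D q : ℕ) (m : ℕ × ℕ) (lam : ℕ) : Prop :=
  Lt (q, 0) m ∧ m.2 ≤ b ∧ (∀ w < lam, code b D (q, 0) w = code b D m w) ∧
  code b D (q, 0) lam ≠ code b D m lam ∧
  ∀ z : ℕ × ℕ, z.2 ≤ b → Lt (q, 0) z → Lt z m → ∃ w < lam, code b D (q, 0) w ≠ code b D z w

def Lam (b : ℕ) : ℕ → ℕ → Finset ℕ
  | 0, _ => ∅
  | D + 1, q => Icc 1 (q % b) ∪ (Lam b D (q / b)).image (fun l => l + (b + 1))

lemma Lam_lt (b : ℕ) (hb : 1 ≤ b) (D q l : ℕ) (h : l ∈ Lam b D q) :
    1 ≤ l ∧ l < D * (b + 1) := by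
  induction D generalizing q l with
  | zero => simp [Lam] at h
  | succ D ih =>
    rw [Lam, mem_union, mem_Icc, mem_image] at h
    have hq : q % b < b := Nat.mod_lt _ hb
    rcases h with h | ⟨l', hl', rfl⟩
    · refine ⟨h.1, ?_⟩
      have : (D + 1) * (b + 1) = D * (b + 1) + (b + 1) := by ring
      omega
    · have := ih (q / b) l' hl'
      have h2 : (D + 1) * (b + 1) = D * (b + 1) + (b + 1) := by ring
      omega

lemma Lam_card (b : ℕ) (hb : 1 ≤ b) (D q : ℕ) :
    #(Lam b (D + 1) q) = q % b + #(Lam b D (q / b)) := by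
  have hq : q % b < b := Nat.mod_lt _ hb
  rw [Lam, card_union_of_disjoint, card_image_of_injective, Nat.card_Icc]
  · omega
  · intro a c h; simpa using h
  · rw [Finset.disjoint_left]
    intro a ha hc
    rw [mem_Icc] at ha
    rw [mem_image] at hc
    obtain ⟨c, _, rfl⟩ := hc
    omega

/-- inverse of `e ↦ (xx b e, gg b e)` -/
def hh (b t : ℕ) (e : ℕ × ℕ) : ℕ × ℕ :=
  if e.2 = 0 then (t - 1 + b * e.1, 0) else (t - 1 + b * e.1 + (e.2 - 1), t)

lemma hh_snd_le (b t : ℕ) (ht : t ≤ b) (e : ℕ × ℕ) : (hh b t e).2 ≤ b := by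
  unfold hh
  split_ifs <;> simp [ht]

lemma xx_hh (b t : ℕ) (h1 : 1 ≤ t) (ht : t ≤ b) (e : ℕ × ℕ) : xx b (hh b t e) = t := by
  unfold hh
  split_ifs with h
  · simp only [xx, if_true]
    rw [Nat.add_mul_mod_self_left, Nat.mod_eq_of_lt (by omega)]
    omega
  · simp only [xx]
    rw [if_neg (by omega)]

lemma gg_hh (b t : ℕ) (h1 : 1 ≤ t) (ht : t ≤ b) (e : ℕ × ℕ) (he : e.2 ≤ b) :
    gg b (hh b t e) = e := by
  unfold hh
  have hb : 0 < b := by omega
  split_ifs with h
  · simp only [gg, if_true]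
    rw [Nat.add_mul_div_left _ _ hb, Nat.div_eq_of_lt (by omega)]
    ext <;> simp [h]
  · simp only [gg]
    rw [if_neg (by omega)]
    have e1 : t - 1 + b * e.1 + (e.2 - 1) + 1 - t = (e.2 - 1) + b * e.1 := by omega
    rw [e1, Nat.add_mul_div_left _ _ hb, Nat.add_mul_mod_self_left,
      Nat.div_eq_of_lt (by omega), Nat.mod_eq_of_lt (by omega)]
    ext
    · simp
    · simp only; omega

lemma hh_gg (b q : ℕ) (z : ℕ × ℕ) (hq : q ≤ z.1)
    (hx : xx b z = 1 + q % b) : hh b (1 + q % b) (gg b z) = z := by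
  unfold gg
  split_ifs with h
  · simp only [hh, if_true]
    simp only [xx, h, if_true] at hx
    have h3 := Nat.mod_add_div z.1 b
    ext
    · simp only; omega
    · simp [h]
  · simp only [hh]
    rw [if_neg (by omega)]
    simp only [xx, if_neg h] at hx
    have h4 : q % b ≤ q := Nat.mod_le _ _
    have h3 := Nat.mod_add_div (z.1 + 1 - z.2) b
    ext
    · simp only; omega
    · simp only; omega

lemma hh_lt (b t : ℕ) (h1 : 1 ≤ t) (ht : t ≤ b) (e f : ℕ × ℕ) (he : e.2 ≤ b) (hf : f.2 ≤ b)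
    (h : Lt e f) : Lt (hh b t e) (hh b t f) := by
  unfold Lt at *
  unfold hh
  rcases h with h | ⟨h, h'⟩
  · have : b * e.1 + b ≤ b * f.1 := by
      calc b * e.1 + b = b * (e.1 + 1) := by ring
        _ ≤ b * f.1 := Nat.mul_le_mul_left _ h
    split_ifs <;> simp only <;> omega
  · rw [h]
    split_ifs <;> simp only <;> omega

lemma Lt_trichotomy (e f : ℕ × ℕ) : Lt e f ∨ e = f ∨ Lt f e := by
  unfold Lt
  rw [Prod.ext_iff]
  omega

lemma Lt_asymm (e f : ℕ × ℕ) (h : Lt e f) : ¬ Lt f e := by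
  unfold Lt at *
  omega

lemma Lt_irrefl (e : ℕ × ℕ) : ¬ Lt e e := by
  unfold Lt
  omega

lemma hh_lt_iff (b t : ℕ) (h1 : 1 ≤ t) (ht : t ≤ b) (e f : ℕ × ℕ) (he : e.2 ≤ b) (hf : f.2 ≤ b) :
    Lt (hh b t e) (hh b t f) ↔ Lt e f := by
  constructor
  · intro h
    rcases Lt_trichotomy e f with h2 | h2 | h2
    · exact h2
    · subst h2; exact absurd h (Lt_irrefl _)
    · exact absurd h (Lt_asymm _ _ (hh_lt b t h1 ht f e hf he h2))
  · exact hh_lt b t h1 ht e f he hf

lemma gg_snd_le (b : ℕ) (hb : 1 ≤ b) (e : ℕ × ℕ) : (gg b e).2 ≤ b := by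
  unfold gg
  have := Nat.mod_lt (e.1 + 1 - e.2) hb
  split_ifs <;> simp only <;> omega

lemma hh_zero (b q : ℕ) : hh b (1 + q % b) (q / b, 0) = (q, 0) := by
  have h3 := Nat.mod_add_div q b
  simp only [hh, if_true]
  ext
  · simp only; omega
  · rfl

/-- the key property: every element of `Lam` is a record value -/
lemma good (b : ℕ) (hb : 1 ≤ b) (D q l : ℕ) (h : l ∈ Lam b D q) :
    ∃ m, Good b D q m l ∧ m.1 * (b + 1) + m.2 ≤ q * (b + 1) + (b + 1) ^ D := by
  induction D generalizing q l with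
  | zero => simp [Lam] at h
  | succ D ih =>
    rw [Lam, mem_union, mem_Icc, mem_image] at h
    have hq : q % b < b := Nat.mod_lt _ hb
    rcases h with h | ⟨l', hl', rfl⟩
    · refine ⟨(q, l), ⟨Or.inr ⟨rfl, by simp only; omega⟩, by simp only; omega, ?_, ?_, ?_⟩, ?_⟩
      · intro w hw
        rw [code_lt _ _ _ _ (by omega), code_lt _ _ _ _ (by omega), xx_zero,
          xx_pos _ _ (by simp only; omega), decide_eq_decide]
        simp only
        omega
      · rw [code_lt _ _ _ _ (by omega), code_lt _ _ _ _ (by omega), xx_zero,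
          xx_pos _ _ (by simp only; omega), ne_eq, decide_eq_decide]
        simp only
        omega
      · intro z hz h1 h2
        have hz1 : z.1 = q ∧ 0 < z.2 ∧ z.2 < l := by
          unfold Lt at h1 h2
          simp only at h1 h2
          omega
        refine ⟨z.2, hz1.2.2, ?_⟩
        rw [code_lt _ _ _ _ (by omega), code_lt _ _ _ _ (by omega), xx_zero,
          xx_pos _ _ (by omega), ne_eq, decide_eq_decide]
        omega
      · simp only
        have : b + 1 ≤ (b + 1) ^ (D + 1) := by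
          calc b + 1 = (b + 1) ^ 1 := (pow_one _).symm
            _ ≤ (b + 1) ^ (D + 1) := Nat.pow_le_pow_right (by omega) (by omega)
        omega
    · obtain ⟨m', ⟨g1, g2, g3, g4, g5⟩, g6⟩ := ih (q / b) l' hl'
      set t := 1 + q % b with ht
      have ht1 : 1 ≤ t := by omega
      have htb : t ≤ b := by omega
      have hq0 : hh b t (q / b, 0) = (q, 0) := hh_zero b q
      have hxq : xx b (q, 0) = t := by simp [xx, ht]
      have hgq : gg b (q, 0) = (q / b, 0) := by simp [gg]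
      have hxm := xx_hh b t ht1 htb m'
      have hgm := gg_hh b t ht1 htb m' g2
      refine ⟨hh b t m', ⟨?_, hh_snd_le b t htb m', ?_, ?_, ?_⟩, ?_⟩
      · rw [← hq0]
        exact hh_lt b t ht1 htb _ _ (by simp) g2 g1
      · intro w hw
        by_cases hwb : w < b + 1
        · rw [code_lt _ _ _ _ hwb, code_lt _ _ _ _ hwb, hxq, hxm]
        · rw [code_ge _ _ _ _ hwb, code_ge _ _ _ _ hwb, hgq, hgm]
          exact g3 _ (by omega)
      · rw [code_ge _ _ _ _ (by omega), code_ge _ _ _ _ (by omega), hgq, hgm]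
        simpa using g4
      · intro z hz h1 h2
        by_cases hxz : xx b z = t
        · have hqz : q ≤ z.1 := by
            unfold Lt at h1
            simp only at h1
            omega
          have hzz : hh b t (gg b z) = z := hh_gg b q z hqz hxz
          rw [← hzz, ← hq0, hh_lt_iff b t ht1 htb _ _ (by simp) (gg_snd_le b hb z)] at h1
          rw [← hzz, hh_lt_iff b t ht1 htb _ _ (gg_snd_le b hb z) g2] at h2
          obtain ⟨w, hw, hne⟩ := g5 (gg b z) (gg_snd_le b hb z) h1 h2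
          refine ⟨w + (b + 1), by omega, ?_⟩
          rw [code_ge _ _ _ _ (by omega), code_ge _ _ _ _ (by omega), hgq]
          simpa using hne
        · have hxz1 : 1 ≤ xx b z := by unfold xx; split_ifs <;> omega
          refine ⟨min (xx b z) t, by omega, ?_⟩
          rw [code_lt _ _ _ _ (by omega), code_lt _ _ _ _ (by omega), hxq, ne_eq,
            decide_eq_decide]
          omega
      · have h8 : (b + 1) ^ (D + 1) = (b + 1) ^ D * (b + 1) := pow_succ _ _
        have h9 := Nat.mod_add_div q b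
        have hle : q / b ≤ m'.1 := by
          unfold Lt at g1
          simp only at g1
          omega
        have hK : b * m'.1 + m'.2 ≤ b * (q / b) + (b + 1) ^ D := by
          have e1 : m'.1 * (b + 1) = b * m'.1 + m'.1 := by ring
          have e2 : (q / b) * (b + 1) = b * (q / b) + q / b := by ring
          omega
        have hqt : q = t - 1 + b * (q / b) := by omega
        have hfin : (t - 1 + b * m'.1 + m'.2) * (b + 1) ≤
            (t - 1 + b * (q / b) + (b + 1) ^ D) * (b + 1) :=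
          Nat.mul_le_mul_right _ (by omega)
        rw [← hqt, add_mul q] at hfin
        rw [h8]
        refine le_trans ?_ hfin
        unfold hh
        split_ifs with h0
        · simp only
          exact Nat.mul_le_mul_right _ (by omega)
        · simp only
          obtain ⟨r, hr⟩ : ∃ r, m'.2 = r + 1 := ⟨m'.2 - 1, by omega⟩
          rw [hr]
          have : (t - 1 + b * m'.1 + (r + 1)) * (b + 1) =
            (t - 1 + b * m'.1 + (r + 1 - 1)) * (b + 1) + (b + 1) := by
            rw [Nat.add_sub_cancel]; ring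
          omega

/-! ### the string -/

def lett (v : Bool) : Fin 3 := if v then 1 else 0

lemma lett_ne (v : Bool) : lett v ≠ 2 := by cases v <;> simp [lett]

lemma lett_inj {u v : Bool} (h : lett u = lett v) : u = v := by
  cases u <;> cases v <;> simp [lett] at h ⊢

/-- the string: block number `m` (`m = 0, 1, ...`) consists of `A = D (b+1)` letters `2`, followed
by the `A` bits of the code of `m` -/
def str (b D x : ℕ) : Fin 3 :=
  if (x - 1) % (2 * (D * (b + 1))) < D * (b + 1) then 2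
  else lett (code b D ((x - 1) / (2 * (D * (b + 1))) / (b + 1),
    (x - 1) / (2 * (D * (b + 1))) % (b + 1)) ((x - 1) % (2 * (D * (b + 1))) - D * (b + 1)))

lemma str_eq (b D q r p : ℕ) (hr : r ≤ b) (hp : p < 2 * (D * (b + 1))) :
    str b D (1 + (q * (b + 1) + r) * (2 * (D * (b + 1))) + p) =
      if p < D * (b + 1) then 2 else lett (code b D (q, r) (p - D * (b + 1))) := by
  unfold str
  have e0 : 1 + (q * (b + 1) + r) * (2 * (D * (b + 1))) + p - 1 =
      p + (2 * (D * (b + 1))) * (q * (b + 1) + r) := by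
    rw [mul_comm (2 * (D * (b + 1)))]; omega
  have hB : 0 < 2 * (D * (b + 1)) := by omega
  rw [e0, Nat.add_mul_mod_self_left, Nat.add_mul_div_left _ _ hB, Nat.mod_eq_of_lt hp,
    Nat.div_eq_of_lt hp, zero_add]
  have e1 : q * (b + 1) + r = r + (b + 1) * q := by ring
  rw [e1, Nat.add_mul_mod_self_left, Nat.add_mul_div_left _ _ (by omega),
    Nat.mod_eq_of_lt (by omega), Nat.div_eq_of_lt (by omega), zero_add]

lemma Lt_of_idx (b : ℕ) (e f : ℕ × ℕ) (hf : f.2 ≤ b)
    (h : e.1 * (b + 1) + e.2 < f.1 * (b + 1) + f.2) : Lt e f := by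
  unfold Lt
  by_contra hc
  have h1 : f.1 ≤ e.1 := by omega
  rcases Nat.eq_or_lt_of_le h1 with h2 | h2
  · rw [h2] at h; omega
  · have : (f.1 + 1) * (b + 1) ≤ e.1 * (b + 1) := Nat.mul_le_mul_right _ h2
    rw [add_mul] at this
    omega

lemma rcr (b : ℕ) (hb : 1 ≤ b) (D q p l n : ℕ) (hp : p < D * (b + 1)) (hl : l ∈ Lam b D q)
    (hn : (q * (b + 1) + (b + 1) ^ D + 1) * (2 * (D * (b + 1))) ≤ n) :
    RightClosedRepeat n (str b D) (1 + q * (b + 1) * (2 * (D * (b + 1))) + p)
      (q * (b + 1) * (2 * (D * (b + 1))) + D * (b + 1) + l) := by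
  obtain ⟨m, ⟨g1, g2, g3, g4, g5⟩, g6⟩ := good b hb D q l hl
  obtain ⟨hl1, hl2⟩ := Lam_lt b hb D q l hl
  have S : ∀ q r p : ℕ, r ≤ b → p < 2 * (D * (b + 1)) →
      str b D (1 + (q * (b + 1) + r) * (2 * (D * (b + 1))) + p) =
      if p < D * (b + 1) then 2 else lett (code b D (q, r) (p - D * (b + 1))) :=
    fun q r p h1 h2 => str_eq b D q r p h1 h2
  have S0 : ∀ q p : ℕ, p < 2 * (D * (b + 1)) →
      str b D (1 + q * (b + 1) * (2 * (D * (b + 1))) + p) =
      if p < D * (b + 1) then 2 else lett (code b D (q, 0) (p - D * (b + 1))) :=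
    fun q p h2 => S q 0 p (by omega) h2
  have hpos : q * (b + 1) < m.1 * (b + 1) + m.2 := by
    unfold Lt at g1
    simp only at g1
    rcases g1 with g1 | g1
    · have : (q + 1) * (b + 1) ≤ m.1 * (b + 1) := Nat.mul_le_mul_right _ g1
      rw [add_mul] at this
      omega
    · rw [g1.1]; omega
  set A := D * (b + 1) with hA
  set u := q * (b + 1) with hu
  set v := m.1 * (b + 1) + m.2 with hv
  have huv : u * (2 * A) + 2 * A ≤ v * (2 * A) := by
    have : (u + 1) * (2 * A) ≤ v * (2 * A) := Nat.mul_le_mul_right _ hpos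
    rw [add_mul] at this
    omega
  have hvn : v * (2 * A) + 2 * A ≤ n := by
    have : (v + 1) * (2 * A) ≤ (u + (b + 1) ^ D + 1) * (2 * A) :=
      Nat.mul_le_mul_right _ (by omega)
    rw [add_mul v] at this
    omega
  refine ⟨by omega, by omega, by omega, 1 + v * (2 * A) + p, by omega, ⟨by omega, by omega, ?_⟩,
    ?_, Or.inr ?_⟩
  · intro t ht
    rw [add_assoc _ p t, add_assoc _ p t, S m.1 m.2 (p + t) g2 (by omega),
      S0 q (p + t) (by omega)]
    split_ifs with h
    · rfl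
    · have := g3 (p + t - A) (by omega)
      rw [this]
  · intro z hz1 hz2 ⟨_, _, ho⟩
    obtain ⟨zi, zp, hzp, hz⟩ : ∃ zi zp, zp < 2 * A ∧ z = 1 + zi * (2 * A) + zp := by
      refine ⟨(z - 1) / (2 * A), (z - 1) % (2 * A), Nat.mod_lt _ (by omega), ?_⟩
      have := Nat.div_add_mod (z - 1) (2 * A)
      rw [mul_comm] at this
      omega
    obtain ⟨zq, zr, hzr, hzi⟩ : ∃ zq zr, zr ≤ b ∧ zi = zq * (b + 1) + zr := by
      refine ⟨zi / (b + 1), zi % (b + 1), Nat.lt_succ_iff.1 (Nat.mod_lt _ (by omega)), ?_⟩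
      have := Nat.div_add_mod zi (b + 1)
      rw [mul_comm] at this
      omega
    have hzA : zp < A := by
      by_contra hc
      have h1 := ho 0 (by omega)
      rw [add_zero, add_zero, hz, hzi, S zq zr zp hzr hzp, S0 q p (by omega), if_neg hc,
        if_pos hp] at h1
      exact lett_ne _ h1
    rcases lt_trichotomy zp p with h | h | h
    · have h1 := ho (A - p) (by omega)
      rw [hz, hzi, add_assoc _ zp, add_assoc _ p, S zq zr (zp + (A - p)) hzr (by omega),
        S0 q (p + (A - p)) (by omega), if_pos (by omega), if_neg (by omega)] at h1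
      exact lett_ne _ h1.symm
    · subst h
      have h2 : u * (2 * A) < zi * (2 * A) := by omega
      have h3 : zi * (2 * A) < v * (2 * A) := by omega
      have h2' := Nat.lt_of_mul_lt_mul_right h2
      have h3' := Nat.lt_of_mul_lt_mul_right h3
      have l1 : Lt (q, 0) (zq, zr) := Lt_of_idx b _ _ hzr (by simp only; omega)
      have l2 : Lt (zq, zr) m := Lt_of_idx b _ _ g2 (by simp only; omega)
      obtain ⟨w, hw, hne⟩ := g5 (zq, zr) hzr l1 l2
      have h1 := ho (A - zp + w) (by omega)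
      rw [hz, hzi, add_assoc _ zp, add_assoc _ zp, S zq zr (zp + (A - zp + w)) hzr (by omega),
        S0 q (zp + (A - zp + w)) (by omega), if_neg (by omega), if_neg (by omega)] at h1
      have e : zp + (A - zp + w) - A = w := by omega
      rw [e] at h1
      exact hne (lett_inj h1).symm
    · have h1 := ho (A - zp) (by omega)
      rw [hz, hzi, add_assoc _ zp, add_assoc _ p, S zq zr (zp + (A - zp)) hzr (by omega),
        S0 q (p + (A - zp)) (by omega), if_neg (by omega), if_pos (by omega)] at h1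
      exact lett_ne _ h1
  · have e1 : u * (2 * A) + A + l + 1 = 1 + u * (2 * A) + (A + l) := by ring
    have e2 : 1 + v * (2 * A) + p + (u * (2 * A) + A + l - (1 + u * (2 * A) + p)) + 1 =
        1 + v * (2 * A) + (A + l) := by omega
    rw [e1, e2, S0 q (A + l) (by omega), S m.1 m.2 (A + l) g2 (by omega), if_neg (by omega),
      if_neg (by omega), Nat.add_sub_cancel_left]
    intro h
    exact g4 (lett_inj h)

/-! ### counting -/

lemma sum_block (b : ℕ) (hb : 0 < b) (f g : ℕ → ℕ) (R : ℕ) :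
    ∑ q ∈ range (b * R), (f (q % b) + g (q / b)) =
      R * ∑ i ∈ range b, f i + b * ∑ q ∈ range R, g q := by
  induction R with
  | zero => simp
  | succ R ih =>
    rw [Nat.mul_succ, sum_range_add, ih, sum_range_succ g R]
    have : ∑ x ∈ range b, (f ((b * R + x) % b) + g ((b * R + x) / b)) =
        ∑ x ∈ range b, f x + b * g R := by
      have : ∀ x ∈ range b, f ((b * R + x) % b) + g ((b * R + x) / b) = f x + g R := by
        intro x hx
        rw [mem_range] at hx
        rw [add_comm (b * R) x, Nat.add_mul_mod_self_left, Nat.add_mul_div_left _ _ hb,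
          Nat.mod_eq_of_lt hx, Nat.div_eq_of_lt hx, zero_add]
      rw [sum_congr rfl this, sum_add_distrib, sum_const, card_range, smul_eq_mul]
    rw [this]
    ring

lemma sum_Lam (b : ℕ) (hb : 1 ≤ b) (D M : ℕ) :
    2 * ∑ q ∈ range (b ^ D * M), #(Lam b D q) = D * (b - 1) * (b ^ D * M) := by
  induction D with
  | zero => simp [Lam]
  | succ D ih =>
    have e : b ^ (D + 1) * M = b * (b ^ D * M) := by ring
    rw [e]
    have h1 : ∀ q ∈ range (b * (b ^ D * M)), #(Lam b (D + 1) q) =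
        (fun x => x) (q % b) + (fun x => #(Lam b D x)) (q / b) := by
      intro q _
      exact Lam_card b hb D q
    rw [sum_congr rfl h1, sum_block b hb (fun x => x) (fun x => #(Lam b D x)) (b ^ D * M)]
    have h2 : (∑ i ∈ range b, i) * 2 = b * (b - 1) := sum_range_id_mul_two b
    calc 2 * (b ^ D * M * ∑ i ∈ range b, i + b * ∑ q ∈ range (b ^ D * M), #(Lam b D q))
        = b ^ D * M * ((∑ i ∈ range b, i) * 2) +
          b * (2 * ∑ q ∈ range (b ^ D * M), #(Lam b D q)) := by ring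
      _ = _ := by rw [h2, ih]; ring

/-- the chosen starting positions -/
def PP (b D Q : ℕ) : Finset ℕ :=
  (range Q ×ˢ range (D * (b + 1))).image
    (fun c => 1 + c.1 * (b + 1) * (2 * (D * (b + 1))) + c.2)

lemma inj_pos (b A : ℕ) (q q' p p' : ℕ) (hp : p < A) (hp' : p' < A)
    (h : 1 + q * (b + 1) * (2 * A) + p = 1 + q' * (b + 1) * (2 * A) + p') : q = q' ∧ p = p' := by
  have h1 : q * (b + 1) * (2 * A) + p = q' * (b + 1) * (2 * A) + p' := by omega
  have key : ∀ x y z w : ℕ, z < A → w < A → x * (b + 1) * (2 * A) + z =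
      y * (b + 1) * (2 * A) + w → ¬ x < y := by
    intro x y z w hz hw h hxy
    have : (x * (b + 1) + (b + 1)) * (2 * A) ≤ y * (b + 1) * (2 * A) := by
      apply Nat.mul_le_mul_right
      calc x * (b + 1) + (b + 1) = (x + 1) * (b + 1) := by ring
        _ ≤ y * (b + 1) := Nat.mul_le_mul_right _ hxy
    have h3 : 2 * A ≤ (b + 1) * (2 * A) := Nat.le_mul_of_pos_left _ (by omega)
    rw [add_mul] at this
    omega
  have hq : q = q' := by
    have := key q q' p p' hp hp' h1
    have := key q' q p' p hp' hp h1.symm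
    omega
  subst hq
  exact ⟨rfl, by omega⟩

lemma PP_card (b D Q : ℕ) : #(PP b D Q) = Q * (D * (b + 1)) := by
  unfold PP
  rw [card_image_of_injOn, card_product, card_range, card_range]
  rintro ⟨q, p⟩ h ⟨q', p'⟩ h' he
  simp only [coe_product, coe_range, Set.mem_prod, Set.mem_Iio] at h h'
  simp only at he
  have := inj_pos b _ q q' p p' h.2 h'.2 he
  rw [this.1, this.2]

lemma count_lower (b : ℕ) (hb : 1 ≤ b) (D M Q n : ℕ) (hQ : Q = b ^ D * M)
    (hQ2 : (b + 1) ^ D ≤ Q) (hn : n = (b + 2) * Q * (2 * (D * (b + 1)))) :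
    PP b D Q ⊆ Icc 1 n ∧ D * (b - 1) * #(PP b D Q) ≤
      2 * Set.ncard {x : ℕ × ℕ | x.1 ∈ PP b D Q ∧ RightClosedRepeat n (str b D) x.1 x.2} := by
  classical
  have hQ1 : 1 ≤ Q := le_trans (Nat.one_le_pow _ _ (by omega)) hQ2
  have hbound : ∀ q < Q, (q * (b + 1) + (b + 1) ^ D + 1) * (2 * (D * (b + 1))) ≤ n := by
    intro q hq
    rw [hn]
    apply Nat.mul_le_mul_right
    have h1 : (q + 1) * (b + 1) ≤ Q * (b + 1) := Nat.mul_le_mul_right _ hq
    have h2 : (b + 2) * Q = Q * (b + 1) + Q := by ring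
    rw [add_mul] at h1
    omega
  refine ⟨?_, ?_⟩
  · intro x hx
    rw [PP, mem_image] at hx
    obtain ⟨⟨q, p⟩, hc, rfl⟩ := hx
    rw [mem_product, mem_range, mem_range] at hc
    have h1 := hbound q hc.1
    simp only at hc ⊢
    rw [mem_Icc]
    refine ⟨by omega, le_trans ?_ h1⟩
    have h2 : q * (b + 1) * (2 * (D * (b + 1))) + 2 * (D * (b + 1)) ≤
        (q * (b + 1) + (b + 1) ^ D + 1) * (2 * (D * (b + 1))) := by
      calc q * (b + 1) * (2 * (D * (b + 1))) + 2 * (D * (b + 1))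
          = (q * (b + 1) + 1) * (2 * (D * (b + 1))) := by ring
        _ ≤ _ := Nat.mul_le_mul_right _ (by omega)
    omega
  · set T : Finset (Σ _ : ℕ × ℕ, ℕ) :=
      (range Q ×ˢ range (D * (b + 1))).sigma (fun c => Lam b D c.1) with hT
    set φ : (Σ _ : ℕ × ℕ, ℕ) → ℕ × ℕ := fun y =>
      (1 + y.1.1 * (b + 1) * (2 * (D * (b + 1))) + y.1.2,
        y.1.1 * (b + 1) * (2 * (D * (b + 1))) + D * (b + 1) + y.2) with hφ
    have hinj : Set.InjOn φ (T : Set (Σ _ : ℕ × ℕ, ℕ)) := by
      rintro ⟨⟨q, p⟩, l⟩ h ⟨⟨q', p'⟩, l'⟩ h' he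
      rw [mem_coe, hT, mem_sigma, mem_product, mem_range, mem_range] at h h'
      simp only [hφ, Prod.mk.injEq] at he
      simp only at h h'
      obtain ⟨rfl, rfl⟩ := inj_pos b _ q q' p p' h.1.2 h'.1.2 he.1
      have : l = l' := by omega
      rw [this]
    have hcard : #(T.image φ) = ∑ c ∈ range Q ×ˢ range (D * (b + 1)), #(Lam b D c.1) := by
      rw [card_image_of_injOn hinj, hT, card_sigma]
    have hsum : ∑ c ∈ range Q ×ˢ range (D * (b + 1)), #(Lam b D c.1) =
        D * (b + 1) * ∑ q ∈ range Q, #(Lam b D q) := by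
      rw [sum_product]
      simp only [sum_const, card_range, smul_eq_mul]
      rw [← mul_sum]
    have hfin : Set.Finite {x : ℕ × ℕ | x.1 ∈ PP b D Q ∧
        RightClosedRepeat n (str b D) x.1 x.2} := by
      apply Set.Finite.subset (Finset.finite_toSet (Icc 1 n ×ˢ Icc 1 n))
      rintro ⟨i, j⟩ ⟨_, h1, h2, h3, _⟩
      simp only [coe_product, coe_Icc, Set.mem_prod, Set.mem_Icc] at *
      omega
    have hsub : ((T.image φ : Finset (ℕ × ℕ)) : Set (ℕ × ℕ)) ⊆ {x : ℕ × ℕ | x.1 ∈ PP b D Q ∧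
        RightClosedRepeat n (str b D) x.1 x.2} := by
      intro x hx
      rw [mem_coe, mem_image] at hx
      obtain ⟨⟨⟨q, p⟩, l⟩, hy, rfl⟩ := hx
      rw [hT, mem_sigma, mem_product, mem_range, mem_range] at hy
      simp only at hy
      refine ⟨?_, ?_⟩
      · rw [PP, mem_image]
        exact ⟨(q, p), by rw [mem_product, mem_range, mem_range]; exact hy.1, rfl⟩
      · exact rcr b hb D q p l n hy.1.2 hy.2 (hbound q hy.1.1)
    have hle := Set.ncard_le_ncard hsub hfin
    rw [Set.ncard_coe_finset, hcard, hsum] at hle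
    have h2 := sum_Lam b hb D M
    rw [← hQ] at h2
    calc D * (b - 1) * #(PP b D Q) = D * (b + 1) * (D * (b - 1) * Q) := by rw [PP_card]; ring
      _ = 2 * (D * (b + 1) * ∑ q ∈ range Q, #(Lam b D q)) := by rw [← h2]; ring
      _ ≤ _ := Nat.mul_le_mul_left _ hle

lemma exists_e (K : ℕ) : ∃ e : ℕ, 2 ≤ e ∧ K * (e + 3) < 2 ^ e := by
  refine ⟨2 * K + 6, by omega, ?_⟩
  have h1 : K < 2 ^ K := Nat.lt_two_pow_self
  have h2 : 2 * K + 6 + 3 ≤ 2 ^ K * 64 := by omega
  have h3 : 2 ^ (2 * K + 6) = 2 ^ K * (2 ^ K * 64) := by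
    rw [show 2 * K + 6 = K + (K + 6) by ring, pow_add, pow_add]
    norm_num
  rw [h3]
  calc K * (2 * K + 6 + 3) ≤ K * (2 ^ K * 64) := Nat.mul_le_mul_left _ h2
    _ < 2 ^ K * (2 ^ K * 64) := Nat.mul_lt_mul_of_pos_right h1 (by positivity)

/-- **Negative answer to Q1 of MP_b69f9e_co** (already for strings over a three-letter alphabet):
for every `C` there are `n`, a string `s` of length `n` and a set `P ⊆ [1..n]` such that more than
`C (n + |P| log₂ n)` right closed repeats of `s` start at positions in `P`. -/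
theorem result : ∀ C : ℝ, ∃ (n : ℕ) (s : ℕ → Fin 3) (P : Finset ℕ), 1 ≤ n ∧ P ⊆ Icc 1 n ∧
    C * (n + #P * Real.logb 2 n) <
      (Set.ncard {x : ℕ × ℕ | x.1 ∈ P ∧ RightClosedRepeat n s x.1 x.2} : ℝ) := by
  intro C
  obtain ⟨e, he, hK⟩ := exists_e ⌈8 * max C 1⌉₊
  set b := 2 ^ e with hbdef
  have hb4 : 4 ≤ b := by
    calc 4 = 2 ^ 2 := by norm_num
      _ ≤ 2 ^ e := Nat.pow_le_pow_right (by norm_num) he
  set Q := b ^ b * 2 ^ b with hQdef
  set n := (b + 2) * Q * (2 * (b * (b + 1))) with hndef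
  have hQ2 : (b + 1) ^ b ≤ Q := by
    rw [hQdef, ← mul_pow]
    exact Nat.pow_le_pow_left (by omega) _
  have hQ1 : 1 ≤ Q := le_trans (Nat.one_le_pow _ _ (by omega)) hQ2
  obtain ⟨hsub, hcnt⟩ := count_lower b (by omega) b (2 ^ b) Q n hQdef hQ2 hndef
  have hn1 : 1 ≤ n := by
    rw [hndef]
    have : 0 < (b + 2) * Q * (2 * (b * (b + 1))) := by positivity
    omega
  refine ⟨n, str b b, PP b b Q, hn1, hsub, ?_⟩
  set k := #(PP b b Q) with hk
  set W := Set.ncard {x : ℕ × ℕ | x.1 ∈ PP b b Q ∧ RightClosedRepeat n (str b b) x.1 x.2} with hW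
  have hkv : k = Q * (b * (b + 1)) := PP_card b b Q
  have hk1 : 1 ≤ k := by
    rw [hkv]
    have : 0 < Q * (b * (b + 1)) := by positivity
    omega
  have hnk : n = 2 * (b + 2) * k := by rw [hndef, hkv]; ring
  have hnle : n ≤ 2 ^ ((e + 1) * (b + 3)) := by
    have h2b : 2 ^ (e + 1) = 2 * b := by rw [pow_succ, ← hbdef]; ring
    rw [pow_mul, h2b, pow_add, mul_pow 2 b b, hndef, hQdef]
    have h3 : (b + 2) * (2 * (b * (b + 1))) ≤ (2 * b) ^ 3 := by
      calc (b + 2) * (2 * (b * (b + 1))) ≤ (2 * b) * (2 * (b * (2 * b))) := by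
            apply Nat.mul_le_mul (by omega)
            apply Nat.mul_le_mul_left
            apply Nat.mul_le_mul_left
            omega
        _ = (2 * b) ^ 3 := by ring
    calc (b + 2) * (b ^ b * 2 ^ b) * (2 * (b * (b + 1)))
        = 2 ^ b * b ^ b * ((b + 2) * (2 * (b * (b + 1)))) := by ring
      _ ≤ 2 ^ b * b ^ b * (2 * b) ^ 3 := Nat.mul_le_mul_left _ h3
  have hlog : Real.logb 2 n ≤ (e + 1) * (b + 3) := by
    have h1 : (n : ℝ) ≤ (2 : ℝ) ^ ((e + 1) * (b + 3)) := by exact_mod_cast hnle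
    have hn0 : (0 : ℝ) < n := by exact_mod_cast hn1
    calc Real.logb 2 n ≤ Real.logb 2 ((2 : ℝ) ^ ((e + 1) * (b + 3))) :=
          Real.logb_le_logb_of_le (by norm_num) hn0 h1
      _ = ((e + 1) * (b + 3) : ℕ) := by
          rw [Real.logb_pow]
          simp
      _ = (e + 1) * (b + 3) := by push_cast; ring
  have hlog0 : 0 ≤ Real.logb 2 n := Real.logb_nonneg (by norm_num) (by exact_mod_cast hn1)
  set c := max C 1 with hc
  have hCc : C ≤ c := le_max_left _ _
  have hc1 : 1 ≤ c := le_max_right _ _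
  have hbc : 8 * c * (e + 3) < b := by
    have h1 : 8 * c ≤ (⌈8 * c⌉₊ : ℝ) := Nat.le_ceil _
    have h2 : ((⌈8 * c⌉₊ * (e + 3) : ℕ) : ℝ) < (b : ℝ) := by exact_mod_cast hK
    push_cast at h2
    have h3 : 8 * c * ((e : ℝ) + 3) ≤ (⌈8 * c⌉₊ : ℝ) * (e + 3) :=
      mul_le_mul_of_nonneg_right h1 (by positivity)
    linarith
  have hcnt' : (b : ℝ) * (b - 1) * k ≤ 2 * W := by
    have h1 : ((b * (b - 1) * k : ℕ) : ℝ) ≤ ((2 * W : ℕ) : ℝ) := by exact_mod_cast hcnt
    rw [Nat.cast_mul, Nat.cast_mul, Nat.cast_sub (by omega)] at h1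
    push_cast at h1
    exact h1
  have hbR : (4 : ℝ) ≤ b := by exact_mod_cast hb4
  have hkR : (1 : ℝ) ≤ k := by exact_mod_cast hk1
  have heR : (2 : ℝ) ≤ e := by exact_mod_cast he
  have hnR : (n : ℝ) = 2 * (b + 2) * k := by rw [hnk]; push_cast; ring
  have hX : (n : ℝ) + k * Real.logb 2 n ≤ 2 * b * (e + 3) * k := by
    have h1 : (k : ℝ) * Real.logb 2 n ≤ k * ((e + 1) * (b + 3)) :=
      mul_le_mul_of_nonneg_left hlog (by positivity)
    have h2 : 2 * ((b : ℝ) + 2) + (e + 1) * (b + 3) ≤ 2 * b * (e + 3) := by nlinarith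
    calc (n : ℝ) + k * Real.logb 2 n
        ≤ 2 * ((b : ℝ) + 2) * k + k * ((e + 1) * (b + 3)) := by linarith
      _ = (2 * ((b : ℝ) + 2) + (e + 1) * (b + 3)) * k := by ring
      _ ≤ 2 * b * (e + 3) * k := mul_le_mul_of_nonneg_right h2 (by positivity)
  have hX0 : 0 ≤ (n : ℝ) + k * Real.logb 2 n := by positivity
  have h5 : C * ((n : ℝ) + k * Real.logb 2 n) ≤ c * (2 * b * (e + 3) * k) :=
    le_trans (mul_le_mul_of_nonneg_right hCc hX0) (mul_le_mul_of_nonneg_left hX (by linarith))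
  have h6 : c * (2 * b * (e + 3) * k) < (b : ℝ) * b * k / 4 := by
    have h7 : 8 * c * (e + 3) * (b * k / 4) < b * (b * k / 4) :=
      mul_lt_mul_of_pos_right hbc (by positivity)
    calc c * (2 * b * (e + 3) * k) = 8 * c * (e + 3) * (b * k / 4) := by ring
      _ < b * (b * k / 4) := h7
      _ = _ := by ring
  have h8 : (b : ℝ) * b * k / 4 ≤ W := by
    have h9 : (b : ℝ) * b * k / 2 ≤ (b : ℝ) * (b - 1) * k := by
      have : (b : ℝ) / 2 ≤ b - 1 := by linarith
      calc (b : ℝ) * b * k / 2 = b * (b / 2) * k := by ring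
        _ ≤ b * (b - 1) * k := by
          apply mul_le_mul_of_nonneg_right _ (by positivity)
          apply mul_le_mul_of_nonneg_left this (by positivity)
    linarith
  linarith

end Pool.Agent.Results.MP_b69f9e_co.Counterexample
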